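import Pool.Agent.H3KS.M.B

/-!
# MP_a785c8_co: every periodic Klein sail has a triangular face
-/

set_option autoImplicit false

namespace Pool.Agent.Results.MP_a785c8_co.TriangularFace

/-- The nonzero integer points of the cone spanned by `v 0`, `v 1`, `v 2`. -/
def lattice (v : Fin 3 → (Fin 3 → ℝ)) : Set (Fin 3 → ℝ) :=
  {x | (∃ t : Fin 3 → ℝ, (∀ i, 0 ≤ t i) ∧ x = ∑ i, t i • v i) ∧
    ∃ z : Fin 3 → ℤ, z ≠ 0 ∧ x = fun j => (z j : ℝ)}

/-- The points of the convex hull of `lattice v` on the plane `w = c`. -/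
def slice (v : Fin 3 → (Fin 3 → ℝ)) (w : Fin 3 → ℝ) (c : ℝ) : Set (Fin 3 → ℝ) :=
  {x ∈ convexHull ℝ (lattice v) | dotProduct w x = c}

/-- **Every periodic Klein sail has a triangular face.** Let `A` be an integer `3 × 3` matrix with
irreducible characteristic polynomial and linearly independent real eigenvectors `v 0`, `v 1`, `v 2`
(`det A = 1` is not needed). The sail of the cone spanned by them has a two-dimensional face which
is a triangle and whose plane is `f = c` for a primitive integer functional `f` and an integer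
`c ≥ 2` (integer distance at least two from the origin). -/
theorem result (A : Matrix (Fin 3) (Fin 3) ℤ) (v : Fin 3 → (Fin 3 → ℝ)) (μ : Fin 3 → ℝ)
    (hA : Irreducible (A.charpoly.map (Int.castRingHom ℚ)))
    (hv : LinearIndependent ℝ v)
    (hev : ∀ i, (A.map (fun a : ℤ => (a : ℝ))).mulVec (v i) = μ i • v i) :
    ∃ (f : Fin 3 → ℤ) (c : ℤ), (∀ d : ℤ, (∀ i, d ∣ f i) → IsUnit d) ∧ 2 ≤ c ∧
      (∀ x ∈ convexHull ℝ (lattice v), (c : ℝ) ≤ dotProduct (fun j => (f j : ℝ)) x) ∧
      Module.finrank ℝ (vectorSpan ℝ (slice v (fun j => (f j : ℝ)) c)) = 2 ∧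
      (Set.extremePoints ℝ (slice v (fun j => (f j : ℝ)) c)).ncard = 3 ∧
      convexHull ℝ (Set.extremePoints ℝ (slice v (fun j => (f j : ℝ)) c)) =
        slice v (fun j => (f j : ℝ)) c :=
  Pool.Agent.H3KS.MP_a785c8_co.main A v μ hA hv hev (lattice v) rfl

end Pool.Agent.Results.MP_a785c8_co.TriangularFace
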